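import Mathlib

/-!
# A counterexample to the conjecture of Harbourne and Huneke on initial degrees: definitions

There is a curve of degree `20` in the plane (over the algebraic closure of the `p`-adic numbers) with
`55` triple points that are not on a curve of degree `9`.
-/

set_option autoImplicit false

namespace Pool.Agent.TH579.HH

/-- The exponents of the monomials in two variables of degree at most `d`. -/
def S (d : ℕ) : Finset (ℕ × ℕ) :=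
  (Finset.range (d + 1) ×ˢ Finset.range (d + 1)).filter fun m => m.1 + m.2 ≤ d

/-- The divided derivative of order `(α, β)` at `(x, y)` of the polynomial of degree at most `20` with
the coefficients `a`. -/
def DD {A : Type} [CommRing A] (a : ℕ × ℕ → A) (x y : A) (α β : ℕ) : A :=
  ∑ m ∈ S 20, a m * ((m.1.choose α * m.2.choose β : ℕ) : A) * x ^ (m.1 - α) * y ^ (m.2 - β)

/-- (J1) The end of the proof. -/
def St_final : Prop :=
  ∀ (k : Type) [Field k] [IsAlgClosed k] [CharZero k] (a : ℕ × ℕ → k) (x y : ℕ → k),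
    (∀ i < 55, ∀ α β, α + β ≤ 2 → DD a (x i) (y i) α β = 0) →
    (∃ m ∈ S 20, a m ≠ 0) →
    (∀ c : ℕ × ℕ → k, (∀ i < 55, ∑ m ∈ S 9, c m * x i ^ m.1 * y i ^ m.2 = 0) →
      ∀ m ∈ S 9, c m = 0) →
    ¬ (∀ (k : Type) [Field k] [IsAlgClosed k] [CharZero k] (n : ℕ), 1 ≤ n →
      ∀ (W : Finset (Projectivization k (Fin (n + 1) → k))), W.Nonempty →
        ∀ r : ℕ, 1 ≤ r → ∀ t : ℕ,
          (∃ f : MvPolynomial (Fin (n + 1)) k, f ≠ 0 ∧ f.IsHomogeneous t ∧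
            f ∈ ⨅ P ∈ W, (Ideal.span {h : MvPolynomial (Fin (n + 1)) k |
                ∃ d : ℕ, h.IsHomogeneous d ∧ MvPolynomial.eval P.rep h = 0}) ^ ((r - 1) * n + 1)) →
          ∃ s : ℕ,
            (∃ g : MvPolynomial (Fin (n + 1)) k, g ≠ 0 ∧ g.IsHomogeneous s ∧
              g ∈ ⨅ P ∈ W, Ideal.span {h : MvPolynomial (Fin (n + 1)) k |
                ∃ d : ℕ, h.IsHomogeneous d ∧ MvPolynomial.eval P.rep h = 0}) ∧
            r * s + (r - 1) * (n - 1) ≤ t)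

/-- (J2) Hensel's lemma for the curves with triple points. -/
def St_hensel : Prop :=
  ∀ (p : ℕ) [Fact p.Prime] (a0 : ℕ × ℕ → ℤ) (x0 y0 : ℕ → ℤ),
    (∀ i < 55, ∀ α β, α + β ≤ 2 → (p : ℤ) ^ 3 ∣ DD a0 (x0 i) (y0 i) α β) →
    (∀ r : ℕ → ℕ → ℕ → ZMod p, ∃ (f : ℕ × ℕ → ZMod p) (q s : ℕ → ZMod p),
      ∀ i < 55, ∀ α β, α + β ≤ 2 →
        DD f (x0 i : ZMod p) (y0 i : ZMod p) α β +
          ((α + 1 : ℕ) : ZMod p) *
            DD (fun m => (a0 m : ZMod p)) (x0 i : ZMod p) (y0 i : ZMod p) (α + 1) β * q i +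
          ((β + 1 : ℕ) : ZMod p) *
            DD (fun m => (a0 m : ZMod p)) (x0 i : ZMod p) (y0 i : ZMod p) α (β + 1) * s i
          = r i α β) →
    ∃ (a : ℕ × ℕ → ℤ_[p]) (x y : ℕ → ℤ_[p]),
      (∀ m, (p : ℤ_[p]) ^ 3 ∣ a m - (a0 m : ℤ_[p])) ∧
      (∀ i, (p : ℤ_[p]) ^ 3 ∣ x i - (x0 i : ℤ_[p])) ∧
      (∀ i, (p : ℤ_[p]) ^ 3 ∣ y i - (y0 i : ℤ_[p])) ∧
      ∀ i < 55, ∀ α β, α + β ≤ 2 → DD a (x i) (y i) α β = 0

/-- (J4) The points are not on a curve of degree `9`. -/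
def St_indep : Prop :=
  ∀ (p : ℕ) [Fact p.Prime] (x0 y0 : ℕ → ℤ) (R : ℕ × ℕ → ℕ → ℤ),
    (∀ i < 55, ∀ l < 55, (p : ℤ) ^ 3 ∣
      (∑ m ∈ S 9, x0 i ^ m.1 * y0 i ^ m.2 * R m l) - (if i = l then (p : ℤ) ^ 2 else 0)) →
    ∀ (x y : ℕ → ℤ_[p]), (∀ i, (p : ℤ_[p]) ^ 3 ∣ x i - (x0 i : ℤ_[p])) →
      (∀ i, (p : ℤ_[p]) ^ 3 ∣ y i - (y0 i : ℤ_[p])) →
    ∀ (k : Type) [Field k] (φ : ℤ_[p] →+* k), Function.Injective φ → ∀ c : ℕ × ℕ → k,
      (∀ i < 55, ∑ m ∈ S 9, c m * φ (x i) ^ m.1 * φ (y i) ^ m.2 = 0) → ∀ m ∈ S 9, c m = 0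

/-- (J3) The digits of a linear combination, if there are no carries. -/
def St_digits : Prop :=
  ∀ (B L N : ℕ) (c R : ℕ → ℕ), 0 < B → (∀ j < N, R j < B ^ L) →
    (∀ l < L, ∑ j ∈ Finset.range N, c j * (R j / B ^ l % B) < B) →
    ∀ l < L, (∑ j ∈ Finset.range N, c j * R j) / B ^ l % B =
      ∑ j ∈ Finset.range N, c j * (R j / B ^ l % B)

end Pool.Agent.TH579.HH
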